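import Pool.Agent.H.MP_42bdc2_co.D

set_option autoImplicit false

namespace Pool.Agent.Results.MP_42bdc2_co.Yes

/-- the edges of the ordered graph `G` split into at most `k` parts, each a stack or a queue -/
def Pages {n : ℕ} (G : SimpleGraph (Fin n)) (k : ℕ) : Prop :=
  ∃ c : Fin n → Fin n → ℕ, (∀ u v, u < v → G.Adj u v → c u v < k) ∧ ∀ i,
    (∀ u v x y, G.Adj u v → G.Adj x y → c u v = i → c x y = i → ¬ (u < x ∧ x < v ∧ v < y)) ∨
    (∀ u v x y, G.Adj u v → G.Adj x y → c u v = i → c x y = i → ¬ (u < x ∧ x < y ∧ y < v))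

/-- mixed page number -/
noncomputable def mn {n : ℕ} (G : SimpleGraph (Fin n)) : ℕ := sInf {k | Pages G k}

def Contains {n m : ℕ} (G : SimpleGraph (Fin n)) (H : SimpleGraph (Fin m)) : Prop :=
  ∃ f : Fin m ↪o Fin n, ∀ u v, H.Adj u v → G.Adj (f u) (f v)

open Pool.Agent.H.MP_42bdc2_co Finset in
theorem result : ∃ (P : ℕ → Set (Σ m : ℕ, SimpleGraph (Fin m))) (f : ℕ → ℕ),
    (∀ k, 1 ≤ k → (P k).Finite ∧ ∀ H ∈ P k, H.2 ≠ ⊥) ∧
    ∀ k, 1 ≤ k → ∀ (n : ℕ) (G : SimpleGraph (Fin n)),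
      ((∀ H ∈ P k, ¬ Contains G H.2) → mn G < f k) ∧ ((∃ H ∈ P k, Contains G H.2) → k ≤ mn G) := by
  classical
  choose g N H using main
  have ne : ∀ n (G : SimpleGraph (Fin n)), Pages G (mn G) := by
    intro n G
    refine Nat.sInf_mem (s := {k | Pages G k}) ⟨n, fun u _ => u.1, fun u _ _ _ => u.2, fun i => Or.inl ?_⟩
    intro u v x y _ _ a b h
    have : u.1 < x.1 := h.1
    have a' : u.1 = i := a
    have b' : x.1 = i := b
    omega
  refine ⟨fun k => {H | H.1 ≤ 2 * g k ∧ k ≤ mn H.2}, fun k => N k + 1, fun k hk => ⟨?_, ?_⟩,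
    fun k hk n G => ⟨fun hav => ?_, ?_⟩⟩
  · refine ((Set.finite_Iic (2 * g k)).biUnion (t := fun m => Set.range (Sigma.mk (β := fun m =>
      SimpleGraph (Fin m)) m)) fun m _ => Set.finite_range _).subset ?_
    rintro ⟨m, G⟩ h
    exact Set.mem_biUnion h.1 ⟨G, rfl⟩
  · rintro ⟨m, G⟩ h e
    have a : mn G ≤ 0 := Nat.sInf_le (show Pages G 0 from
      ⟨fun _ _ => 0, fun u v _ h => by simp only at e; rw [e] at h; exact h.elim,
        fun i => Or.inl fun u v x y h => by simp only at e; rw [e] at h; exact h.elim⟩)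
    have b : k ≤ mn G := h.2
    omega
  · let E : Finset Ed := (univ.filter fun p : Fin n × Fin n => p.1 < p.2 ∧ G.Adj p.1 p.2).image
      fun p => (p.1.1, p.2.1)
    have mE : ∀ e ∈ E, ∃ u v : Fin n, u < v ∧ G.Adj u v ∧ e = (u.1, v.1) := by
      intro e he
      obtain ⟨p, hp, rfl⟩ := mem_image.1 he
      exact ⟨p.1, p.2, (mem_filter.1 hp).2.1, (mem_filter.1 hp).2.2, rfl⟩
    have mE' : ∀ u v : Fin n, u < v → G.Adj u v → (u.1, v.1) ∈ E := fun u v a b =>
      mem_image.2 ⟨(u, v), mem_filter.2 ⟨mem_univ _, a, b⟩, rfl⟩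
    have ok : Ok E := by
      intro e he
      obtain ⟨u, v, a, -, rfl⟩ := mE e he
      exact a
    obtain ⟨c, c1, c2⟩ := H k E ok (by
      intro W hW cW
      let V : Finset (Fin n) := univ.filter fun v => v.1 ∈ W.image Prod.fst ∪ W.image Prod.snd
      have cV : V.card ≤ 2 * g k := by
        have a : V.card ≤ (W.image Prod.fst ∪ W.image Prod.snd).card :=
          card_le_card_of_injOn Fin.val (fun v hv => (mem_filter.1 hv).2) fun _ _ _ _ h => Fin.ext h
        have b := card_union_le (W.image Prod.fst) (W.image Prod.snd)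
        have c := card_image_le (s := W) (f := Prod.fst)
        have d := card_image_le (s := W) (f := Prod.snd)
        omega
      let φ := V.orderEmbOfFin rfl
      have lt : mn (G.comap φ) < k := by
        by_contra hh
        exact hav ⟨V.card, G.comap φ⟩ ⟨cV, not_lt.1 hh⟩ ⟨φ, fun u v h => h⟩
      obtain ⟨d, d1, d2⟩ := ne _ (G.comap φ)
      have ex : ∀ e : Ed, ∃ z : ℕ, ∀ a b, e = ((φ a).1, (φ b).1) → z = d a b := by
        intro e
        by_cases h : ∃ a b, e = ((φ a).1, (φ b).1)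
        · obtain ⟨a, b, rfl⟩ := h
          refine ⟨d a b, fun a' b' h => ?_⟩
          obtain ⟨h1, h2⟩ := Prod.mk.inj h
          rw [φ.injective (Fin.ext h1), φ.injective (Fin.ext h2)]
        · exact ⟨0, fun a b h' => (h ⟨a, b, h'⟩).elim⟩
      choose z hz using ex
      have mW : ∀ e ∈ W, ∃ a b, a < b ∧ (G.comap φ).Adj a b ∧ e = ((φ a).1, (φ b).1) := by
        intro e he
        obtain ⟨u, v, a, b, rfl⟩ := mE e (hW he)
        have hu : u ∈ Set.range φ := by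
          rw [range_orderEmbOfFin]
          exact mem_coe.2 (mem_filter.2 ⟨mem_univ _, mem_union_left _ (mem_image.2 ⟨_, he, rfl⟩)⟩)
        have hv : v ∈ Set.range φ := by
          rw [range_orderEmbOfFin]
          exact mem_coe.2 (mem_filter.2 ⟨mem_univ _, mem_union_right _ (mem_image.2 ⟨_, he, rfl⟩)⟩)
        obtain ⟨u, rfl⟩ := hu
        obtain ⟨v, rfl⟩ := hv
        exact ⟨u, v, φ.lt_iff_lt.1 a, b, rfl⟩
      refine ⟨z, fun e he => ?_, fun i => (d2 i).imp (fun h e he f hf p q hx => ?_) fun h e he f hf p q hx => ?_⟩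
      · obtain ⟨a, b, l, h, rfl⟩ := mW e he
        rw [hz _ a b rfl]
        exact (d1 a b l h).trans lt
      · obtain ⟨a, b, l, h1, rfl⟩ := mW e he
        obtain ⟨a', b', l', h2, rfl⟩ := mW f hf
        rw [hz _ _ _ rfl] at p q
        exact h a b a' b' h1 h2 p q ⟨φ.lt_iff_lt.1 hx.1, φ.lt_iff_lt.1 hx.2.1, φ.lt_iff_lt.1 hx.2.2⟩
      · obtain ⟨a, b, l, h1, rfl⟩ := mW e he
        obtain ⟨a', b', l', h2, rfl⟩ := mW f hf
        rw [hz _ _ _ rfl] at p q
        exact h a b a' b' h1 h2 p q ⟨φ.lt_iff_lt.1 hx.1, l', φ.lt_iff_lt.1 hx.2⟩)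
    refine Nat.lt_succ_of_le (Nat.sInf_le (show Pages G (N k) from
      ⟨fun u v => c (u.1, v.1), fun u v a b => c1 _ (mE' u v a b), fun i => (c2 i).imp
        (fun h u v x y a b p q hx => ?_) fun h u v x y a b p q hx => ?_⟩))
    · exact h _ (mE' u v (hx.1.trans hx.2.1) a) _ (mE' x y (hx.2.1.trans hx.2.2) b) p q hx
    · exact h _ (mE' u v (hx.1.trans (hx.2.1.trans hx.2.2)) a) _ (mE' x y hx.2.1 b) p q ⟨hx.1, hx.2.2⟩
  · rintro ⟨⟨m, H⟩, h, φ, hφ⟩
    obtain ⟨c, c1, c2⟩ := ne n G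
    refine le_trans h.2 (Nat.sInf_le (show Pages H (mn G) from
      ⟨fun u v => c (φ u) (φ v), fun u v a b => c1 _ _ (φ.lt_iff_lt.2 a) (hφ u v b), fun i => (c2 i).imp
        (fun h u v x y a b p q hx => ?_) fun h u v x y a b p q hx => ?_⟩))
    · exact h _ _ _ _ (hφ u v a) (hφ x y b) p q
        ⟨φ.lt_iff_lt.2 hx.1, φ.lt_iff_lt.2 hx.2.1, φ.lt_iff_lt.2 hx.2.2⟩
    · exact h _ _ _ _ (hφ u v a) (hφ x y b) p q
        ⟨φ.lt_iff_lt.2 hx.1, φ.lt_iff_lt.2 hx.2.1, φ.lt_iff_lt.2 hx.2.2⟩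

end Pool.Agent.Results.MP_42bdc2_co.Yes
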